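import Pool.Agent.Helper52.EK.Defs

/-!
# Project EK, E4d: from the pointwise inequality to the integrated one

The theorem `strip_aux` has the null Lagrangian identities and the cut-off function as hypotheses.
-/

set_option autoImplicit false

open Complex MeasureTheory Metric Set
open scoped Real ComplexConjugate

namespace Pool.Agent.Helper44.EK

open Pool.Agent.Helper52.EK

/-! ### Double integrals of continuous functions over a rectangle -/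

/-- The closed rectangle in the plane. -/
def RR (x₁ x₂ : ℝ) : Set (ℝ × ℝ) := Icc x₁ x₂ ×ˢ Icc 0 π

/-- Continuity on the closed rectangle. -/
def CO (x₁ x₂ : ℝ) (F : ℝ → ℝ → ℝ) : Prop :=
  ContinuousOn (fun p : ℝ × ℝ => F p.1 p.2) (RR x₁ x₂)

theorem isCompact_RR (x₁ x₂ : ℝ) : IsCompact (RR x₁ x₂) := isCompact_Icc.prod isCompact_Icc

theorem measurableSet_RR (x₁ x₂ : ℝ) : MeasurableSet (RR x₁ x₂) :=
  measurableSet_Icc.prod measurableSet_Icc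

theorem CO.integrableOn {x₁ x₂ : ℝ} {F : ℝ → ℝ → ℝ} (h : CO x₁ x₂ F) :
    IntegrableOn (fun p : ℝ × ℝ => F p.1 p.2) (RR x₁ x₂) :=
  ContinuousOn.integrableOn_compact (isCompact_RR x₁ x₂) h

theorem II_eq {x₁ x₂ : ℝ} (hx : x₁ ≤ x₂) {F : ℝ → ℝ → ℝ} (hF : CO x₁ x₂ F) :
    II x₁ x₂ F = ∫ p in RR x₁ x₂, F p.1 p.2 := by
  have h1 : ∫ p in RR x₁ x₂, F p.1 p.2 = ∫ ξ in Icc x₁ x₂, ∫ η in Icc (0:ℝ) π, F ξ η := by
    have h2 := hF.integrableOn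
    rw [Measure.volume_eq_prod] at h2 ⊢
    exact setIntegral_prod _ h2
  rw [h1]
  unfold II
  rw [intervalIntegral.integral_of_le hx, ← integral_Icc_eq_integral_Ioc]
  refine setIntegral_congr_fun measurableSet_Icc fun ξ _ => ?_
  rw [intervalIntegral.integral_of_le Real.pi_pos.le, ← integral_Icc_eq_integral_Ioc]

theorem CO.add {x₁ x₂ : ℝ} {F G : ℝ → ℝ → ℝ} (hF : CO x₁ x₂ F) (hG : CO x₁ x₂ G) :
    CO x₁ x₂ (fun ξ η => F ξ η + G ξ η) := ContinuousOn.add hF hG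

theorem CO.sub {x₁ x₂ : ℝ} {F G : ℝ → ℝ → ℝ} (hF : CO x₁ x₂ F) (hG : CO x₁ x₂ G) :
    CO x₁ x₂ (fun ξ η => F ξ η - G ξ η) := ContinuousOn.sub hF hG

theorem CO.mul {x₁ x₂ : ℝ} {F G : ℝ → ℝ → ℝ} (hF : CO x₁ x₂ F) (hG : CO x₁ x₂ G) :
    CO x₁ x₂ (fun ξ η => F ξ η * G ξ η) := ContinuousOn.mul hF hG

theorem CO.neg {x₁ x₂ : ℝ} {F : ℝ → ℝ → ℝ} (hF : CO x₁ x₂ F) :
    CO x₁ x₂ (fun ξ η => - F ξ η) := ContinuousOn.neg hF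

theorem CO.mono {x₁ x₂ y₁ y₂ : ℝ} {F : ℝ → ℝ → ℝ} (hF : CO x₁ x₂ F) (h1 : x₁ ≤ y₁)
    (h2 : y₂ ≤ x₂) : CO y₁ y₂ F :=
  ContinuousOn.mono hF (prod_mono (Icc_subset_Icc h1 h2) subset_rfl)

theorem CO_const {x₁ x₂ : ℝ} (c : ℝ) : CO x₁ x₂ (fun _ _ => c) := continuousOn_const

theorem CO_xi {x₁ x₂ : ℝ} {f : ℝ → ℝ} (hf : Continuous f) : CO x₁ x₂ (fun ξ _ => f ξ) :=
  (hf.comp continuous_fst).continuousOn

theorem CO_eta {x₁ x₂ : ℝ} {f : ℝ → ℝ} (hf : Continuous f) : CO x₁ x₂ (fun _ η => f η) :=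
  (hf.comp continuous_snd).continuousOn

theorem II_add {x₁ x₂ : ℝ} (hx : x₁ ≤ x₂) {F G : ℝ → ℝ → ℝ} (hF : CO x₁ x₂ F)
    (hG : CO x₁ x₂ G) : II x₁ x₂ (fun ξ η => F ξ η + G ξ η) = II x₁ x₂ F + II x₁ x₂ G := by
  rw [II_eq hx (hF.add hG), II_eq hx hF, II_eq hx hG]
  exact integral_add hF.integrableOn hG.integrableOn

theorem II_const_mul {x₁ x₂ : ℝ} (c : ℝ) (F : ℝ → ℝ → ℝ) :
    II x₁ x₂ (fun ξ η => c * F ξ η) = c * II x₁ x₂ F := by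
  unfold II
  simp only [intervalIntegral.integral_const_mul]

theorem II_mono {x₁ x₂ : ℝ} (hx : x₁ ≤ x₂) {F G : ℝ → ℝ → ℝ} (hF : CO x₁ x₂ F)
    (hG : CO x₁ x₂ G) (h : ∀ ξ ∈ Icc x₁ x₂, ∀ η ∈ Icc (0:ℝ) π, F ξ η ≤ G ξ η) :
    II x₁ x₂ F ≤ II x₁ x₂ G := by
  rw [II_eq hx hF, II_eq hx hG]
  exact setIntegral_mono_on hF.integrableOn hG.integrableOn (measurableSet_RR _ _)
    fun p hp => h p.1 hp.1 p.2 hp.2

theorem II_sub_le {x₁ x₂ y₁ y₂ : ℝ} (h1 : x₁ ≤ y₁) (h12 : y₁ ≤ y₂) (h2 : y₂ ≤ x₂)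
    {F G : ℝ → ℝ → ℝ} (hF : CO x₁ x₂ F) (hG : CO y₁ y₂ G)
    (h0 : ∀ ξ ∈ Icc x₁ x₂, ∀ η ∈ Icc (0:ℝ) π, 0 ≤ F ξ η)
    (h : ∀ ξ ∈ Icc y₁ y₂, ∀ η ∈ Icc (0:ℝ) π, G ξ η ≤ F ξ η) :
    II y₁ y₂ G ≤ II x₁ x₂ F := by
  refine (II_mono h12 hG (hF.mono h1 h2) h).trans ?_
  rw [II_eq h12 (hF.mono h1 h2), II_eq (h1.trans (h12.trans h2)) hF]
  refine setIntegral_mono_set hF.integrableOn ?_ ?_
  · exact (ae_restrict_iff' (measurableSet_RR _ _)).2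
      (Filter.Eventually.of_forall fun p hp => h0 p.1 hp.1 p.2 hp.2)
  · exact (prod_mono (Icc_subset_Icc h1 h2) subset_rfl).eventuallyLE

/-! ### Continuity of the functions of the certificate -/

theorem C1f.continuous {W Wx Wy : ℂ → ℝ} (h : C1f W Wx Wy) : Continuous W := by
  rw [continuous_iff_continuousAt]
  exact fun X => (h.hd X).continuousAt

theorem pt_mem {x₁ x₂ : ℝ} {p : ℝ × ℝ} (hp : p ∈ RR x₁ x₂) : pt p.1 p.2 ∈ Rect x₁ x₂ := by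
  rw [Rect, mem_reProdIm]
  simp only [pt, add_re, ofReal_re, mul_re, I_re, mul_zero, ofReal_im, I_im, mul_one, sub_self,
    add_zero, add_im, mul_im, zero_add]
  exact hp

theorem continuous_pt : Continuous (fun p : ℝ × ℝ => pt p.1 p.2) := by
  unfold pt
  fun_prop

theorem comp_pt {x₁ x₂ : ℝ} {X : ℂ → ℂ} (hX : ContinuousOn X (Rect x₁ x₂)) :
    ContinuousOn (fun p : ℝ × ℝ => X (pt p.1 p.2)) (RR x₁ x₂) :=
  hX.comp continuous_pt.continuousOn fun _ hp => pt_mem hp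

theorem CO_comp {x₁ x₂ : ℝ} {X : ℂ → ℂ} (hX : ContinuousOn X (Rect x₁ x₂)) {W : ℂ → ℝ}
    (hW : Continuous W) : CO x₁ x₂ (fun ξ η => W (X (pt ξ η))) :=
  hW.comp_continuousOn (comp_pt hX)

theorem GLip.continuous {G : ℂ → ℂ} {L : ℝ} (hG : GLip G L) : Continuous G := by
  have h : LipschitzWith L.toNNReal G := by
    refine LipschitzWith.of_dist_le_mul fun m m' => ?_
    rw [dist_eq_norm, dist_eq_norm]
    refine (hG.lip m m').trans ?_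
    exact mul_le_mul_of_nonneg_right (Real.le_coe_toNNReal L) (norm_nonneg _)
  exact h.continuous

theorem CO_TG {x₁ x₂ : ℝ} {X : ℂ → ℂ} (hX : NiceX X x₁ x₂) {G : ℂ → ℂ} (hG : Continuous G) :
    CO x₁ x₂ (fun ξ η => TG G (X (pt ξ η)) (deriv X (pt ξ η)) (Real.sin η) (Real.cos η)) := by
  have c1 := comp_pt hX.an.continuousOn
  have c2 := comp_pt (X := deriv X) hX.an.deriv.continuousOn
  have c3 : ContinuousOn (fun p : ℝ × ℝ => e0 (Real.sin p.2) (Real.cos p.2)) (RR x₁ x₂) := by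
    unfold e0
    fun_prop
  have c4 : ContinuousOn (fun p : ℝ × ℝ => mX (X (pt p.1 p.2)) (deriv X (pt p.1 p.2))
      (Real.sin p.2) (Real.cos p.2)) (RR x₁ x₂) := by
    unfold mX
    refine ((continuousOn_const.add c3).mul ?_).sub continuousOn_const
    refine (((continuousOn_const.mul c1).sub continuousOn_const)).add (c2.div c1 ?_)
    exact fun p hp => hX.ne _ (pt_mem hp)
  unfold CO TG
  exact ((hG.comp_continuousOn c4).sub c3).norm.pow 2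

/-! ### The hypotheses -/

/-- The null Lagrangian of a C² function. -/
def NullU : Prop := ∀ {U Ux Uy Lap : ℂ → ℝ} (_ : C2f U Ux Uy Lap) {X : ℂ → ℂ} {x₁ x₂ : ℝ}
    (_ : x₁ ≤ x₂) (_ : AnalyticOnNhd ℂ X (Rect x₁ x₂))
    {χ χ₁ χ₂ : ℝ → ℝ} (_ : ∀ ξ, HasDerivAt χ (χ₁ ξ) ξ) (_ : ∀ ξ, HasDerivAt χ₁ (χ₂ ξ) ξ)
    (_ : Continuous χ₂) (_ : χ x₁ = 0) (_ : χ x₂ = 0) (_ : χ₁ x₁ = 0) (_ : χ₁ x₂ = 0)
    {a a₁ a₂ : ℝ → ℝ} (_ : ∀ η, HasDerivAt a (a₁ η) η) (_ : ∀ η, HasDerivAt a₁ (a₂ η) η)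
    (_ : Continuous a₂) (_ : a 0 = 0) (_ : a π = 0) (_ : a₁ 0 = 0) (_ : a₁ π = 0),
    II x₁ x₂ (fun ξ η => χ ξ * (a η * Lap (X (pt ξ η)) * ‖deriv X (pt ξ η)‖ ^ 2
      - a₂ η * U (X (pt ξ η)))) =
    II x₁ x₂ (fun ξ η => χ₂ ξ * (a η * U (X (pt ξ η))))

/-- The null Lagrangian in the direction of `η`. -/
def NullV : Prop := ∀ {V Vx Vy : ℂ → ℝ} (_ : C1f V Vx Vy) {X : ℂ → ℂ} {x₁ x₂ : ℝ}
    (_ : x₁ ≤ x₂) (_ : AnalyticOnNhd ℂ X (Rect x₁ x₂))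
    {χ : ℝ → ℝ} (_ : Continuous χ) {b b₁ : ℝ → ℝ} (_ : ∀ η, HasDerivAt b (b₁ η) η)
    (_ : Continuous b₁) (_ : b 0 = 0) (_ : b π = 0),
    II x₁ x₂ (fun ξ η => χ ξ * (b η * (-Vx (X (pt ξ η)) * (deriv X (pt ξ η)).im
      + Vy (X (pt ξ η)) * (deriv X (pt ξ η)).re) + b₁ η * V (X (pt ξ η)))) = 0

/-- The null Lagrangian in the direction of `ξ`. -/
def NullW : Prop := ∀ {W Wx Wy : ℂ → ℝ} (_ : C1f W Wx Wy) {X : ℂ → ℂ} {x₁ x₂ : ℝ}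
    (_ : x₁ ≤ x₂) (_ : AnalyticOnNhd ℂ X (Rect x₁ x₂))
    {χ χ₁ : ℝ → ℝ} (_ : ∀ ξ, HasDerivAt χ (χ₁ ξ) ξ) (_ : Continuous χ₁)
    (_ : χ x₁ = 0) (_ : χ x₂ = 0) {b : ℝ → ℝ} (_ : Continuous b),
    II x₁ x₂ (fun ξ η => χ ξ * (b η * (Wx (X (pt ξ η)) * (deriv X (pt ξ η)).re
      + Wy (X (pt ξ η)) * (deriv X (pt ξ η)).im))) =
    - II x₁ x₂ (fun ξ η => χ₁ ξ * (b η * W (X (pt ξ η))))

/-- The cut-off functions. -/
def CutOff : Prop := ∃ C : ℝ, ∀ x₁ x₂ l : ℝ, 1 ≤ l → x₁ + l ≤ x₂ - l →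
    ∃ χ χ₁ χ₂ : ℝ → ℝ, (∀ ξ, HasDerivAt χ (χ₁ ξ) ξ) ∧ (∀ ξ, HasDerivAt χ₁ (χ₂ ξ) ξ) ∧
      Continuous χ₂ ∧ χ x₁ = 0 ∧ χ x₂ = 0 ∧ χ₁ x₁ = 0 ∧ χ₁ x₂ = 0 ∧
      (∀ ξ, 0 ≤ χ ξ ∧ χ ξ ≤ 1) ∧ (∀ ξ ∈ Icc (x₁ + l) (x₂ - l), χ ξ = 1) ∧
      (∀ ξ, |χ₁ ξ| ≤ C / l) ∧ (∀ ξ, |χ₂ ξ| ≤ C / l)

theorem hd_sq (η : ℝ) : HasDerivAt (fun t => Real.sin t ^ 2) (2 * Real.sin η * Real.cos η) η := by
  have := (Real.hasDerivAt_sin η).pow 2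
  exact this.congr_deriv (by simp)

theorem hd_sc (η : ℝ) : HasDerivAt (fun t => 2 * Real.sin t * Real.cos t)
    (2 * (Real.cos η ^ 2 - Real.sin η ^ 2)) η := by
  have := ((Real.hasDerivAt_sin η).const_mul 2).mul (Real.hasDerivAt_cos η)
  exact this.congr_deriv (by ring)

/-- The bound of an error term. -/
theorem err_le {x₁ x₂ : ℝ} (hx : x₁ ≤ x₂) {F N : ℝ → ℝ → ℝ} {c : ℝ} (hF : CO x₁ x₂ F)
    (hN : CO x₁ x₂ N) (h : ∀ ξ η, |F ξ η| ≤ c * N ξ η) :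
    II x₁ x₂ F ≤ c * II x₁ x₂ N ∧ - II x₁ x₂ F ≤ c * II x₁ x₂ N := by
  have hc : CO x₁ x₂ (fun ξ η => c * N ξ η) := (CO_const c).mul hN
  refine ⟨?_, ?_⟩
  · rw [← II_const_mul]
    exact II_mono hx hF hc fun ξ _ η _ => (abs_le.1 (h ξ η)).2
  · rw [← II_const_mul, ← neg_one_mul, ← II_const_mul]
    refine II_mono hx ((CO_const (-1)).mul hF) hc fun ξ _ η _ => ?_
    have := (abs_le.1 (h ξ η)).1
    linarith

theorem strip_aux (nU : NullU) (nV : NullV) (nW : NullW) (cut : CutOff)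
    {κ₂ : ℝ} (hκ : 0 ≤ κ₂) {G : ℂ → ℂ} {L : ℝ} (hG : GLip G L)
    {U Ux Uy Lap V Vx Vy V2 V2x V2y W Wx Wy W2 W2x W2y : ℂ → ℝ}
    (hU : C2f U Ux Uy Lap) (hV : C1f V Vx Vy) (hV2 : C1f V2 V2x V2y) (hW : C1f W Wx Wy)
    (hW2 : C1f W2 W2x W2y)
    {C : ℝ} (bU : ∀ X, |U X| ≤ C * ‖X - 1‖ ^ 2) (bW : ∀ X, |W X| ≤ C * ‖X - 1‖ ^ 2)
    (bW2 : ∀ X, |W2 X| ≤ C * ‖X - 1‖ ^ 2)
    (hp : ∀ X Y : ℂ, X ≠ 0 → ∀ s c : ℝ, s ^ 2 + c ^ 2 = 1 →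
      TG G X Y s c ≤ κ₂ * ‖X - 1‖ ^ 2 + (s ^ 2 * Lap X * ‖Y‖ ^ 2 - 2 * (c ^ 2 - s ^ 2) * U X)
        + (s ^ 2 * (Wx X * Y.re + Wy X * Y.im) + 2 * s * c * (W2x X * Y.re + W2y X * Y.im))
        + (s ^ 2 * (-Vx X * Y.im + Vy X * Y.re) + 2 * s * c * V X)
        + (2 * s * c * (-V2x X * Y.im + V2y X * Y.re) + 2 * (c ^ 2 - s ^ 2) * V2 X)) :
    StripIneq κ₂ (TG G) := by
  obtain ⟨C', hcut⟩ := cut
  refine ⟨3 * (C' * C), fun X x₁ x₂ l hl hx hX => ?_⟩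
  obtain ⟨χ, χ₁, χ₂, d1, d2, c2, e1, e2, e3, e4, b01, b1, k1, k2⟩ := hcut x₁ x₂ l hl hx
  have hx12 : x₁ ≤ x₂ := by linarith
  have hl0 : 0 < l := by linarith
  have hχ : Continuous χ := continuous_iff_continuousAt.2 fun ξ => (d1 ξ).continuousAt
  have hχ₁ : Continuous χ₁ := continuous_iff_continuousAt.2 fun ξ => (d2 ξ).continuousAt
  have hCC : 0 ≤ C' / l := (abs_nonneg _).trans (k1 0)
  -- continuity
  have cX := hX.an.continuousOn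
  have cY : ContinuousOn (deriv X) (Rect x₁ x₂) := hX.an.deriv.continuousOn
  have yre : CO x₁ x₂ (fun ξ η => (deriv X (pt ξ η)).re) := CO_comp cY continuous_re
  have yim : CO x₁ x₂ (fun ξ η => (deriv X (pt ξ η)).im) := CO_comp cY continuous_im
  have yn : CO x₁ x₂ (fun ξ η => ‖deriv X (pt ξ η)‖ ^ 2) := CO_comp cY (continuous_norm.pow 2)
  have n1 : CO x₁ x₂ (fun ξ η => ‖X (pt ξ η) - 1‖ ^ 2) :=
    CO_comp cX ((continuous_id.sub continuous_const).norm.pow 2)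
  have xχ : CO x₁ x₂ (fun ξ _ => χ ξ) := CO_xi hχ
  have xχ₁ : CO x₁ x₂ (fun ξ _ => χ₁ ξ) := CO_xi hχ₁
  have xχ₂ : CO x₁ x₂ (fun ξ _ => χ₂ ξ) := CO_xi c2
  have s2 : CO x₁ x₂ (fun _ η => Real.sin η ^ 2) := CO_eta (by fun_prop)
  have sc : CO x₁ x₂ (fun _ η => 2 * Real.sin η * Real.cos η) := CO_eta (by fun_prop)
  have cc : CO x₁ x₂ (fun _ η => 2 * (Real.cos η ^ 2 - Real.sin η ^ 2)) :=
    CO_eta (by fun_prop)
  have hLap : Continuous Lap := by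
    obtain ⟨Uxx, Uxy, Uyy, g1, g2, g3⟩ := hU.h2
    have : Lap = fun X => Uxx X + Uyy X := funext g3
    rw [this]
    exact g1.cx.add g2.cy
  have oU := CO_comp cX (C1f.continuous hU.h1)
  have oL := CO_comp cX hLap
  have oV := CO_comp cX (C1f.continuous hV)
  have oVx := CO_comp cX hV.cx
  have oVy := CO_comp cX hV.cy
  have oV2 := CO_comp cX (C1f.continuous hV2)
  have oV2x := CO_comp cX hV2.cx
  have oV2y := CO_comp cX hV2.cy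
  have oW := CO_comp cX (C1f.continuous hW)
  have oWx := CO_comp cX hW.cx
  have oWy := CO_comp cX hW.cy
  have oW2 := CO_comp cX (C1f.continuous hW2)
  have oW2x := CO_comp cX hW2.cx
  have oW2y := CO_comp cX hW2.cy
  have oT := CO_TG hX (GLip.continuous hG)
  -- the parts
  obtain ⟨F0, hF0⟩ : ∃ F : ℝ → ℝ → ℝ, F = fun ξ η => χ ξ * (κ₂ * ‖X (pt ξ η) - 1‖ ^ 2) :=
    ⟨_, rfl⟩
  obtain ⟨F1, hF1⟩ : ∃ F : ℝ → ℝ → ℝ, F = fun ξ η => χ ξ * (Real.sin η ^ 2 *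
      Lap (X (pt ξ η)) * ‖deriv X (pt ξ η)‖ ^ 2 -
        2 * (Real.cos η ^ 2 - Real.sin η ^ 2) * U (X (pt ξ η))) := ⟨_, rfl⟩
  obtain ⟨F2, hF2⟩ : ∃ F : ℝ → ℝ → ℝ, F = fun ξ η => χ ξ * (Real.sin η ^ 2 *
      (Wx (X (pt ξ η)) * (deriv X (pt ξ η)).re + Wy (X (pt ξ η)) * (deriv X (pt ξ η)).im)) :=
    ⟨_, rfl⟩
  obtain ⟨F3, hF3⟩ : ∃ F : ℝ → ℝ → ℝ, F = fun ξ η => χ ξ * (2 * Real.sin η * Real.cos η *
      (W2x (X (pt ξ η)) * (deriv X (pt ξ η)).re + W2y (X (pt ξ η)) * (deriv X (pt ξ η)).im)) :=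
    ⟨_, rfl⟩
  obtain ⟨F4, hF4⟩ : ∃ F : ℝ → ℝ → ℝ, F = fun ξ η => χ ξ * (Real.sin η ^ 2 *
      (-Vx (X (pt ξ η)) * (deriv X (pt ξ η)).im + Vy (X (pt ξ η)) * (deriv X (pt ξ η)).re) +
        2 * Real.sin η * Real.cos η * V (X (pt ξ η))) := ⟨_, rfl⟩
  obtain ⟨F5, hF5⟩ : ∃ F : ℝ → ℝ → ℝ, F = fun ξ η => χ ξ * (2 * Real.sin η * Real.cos η *
      (-V2x (X (pt ξ η)) * (deriv X (pt ξ η)).im + V2y (X (pt ξ η)) * (deriv X (pt ξ η)).re) +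
        2 * (Real.cos η ^ 2 - Real.sin η ^ 2) * V2 (X (pt ξ η))) := ⟨_, rfl⟩
  have k0 : CO x₁ x₂ F0 := by
    rw [hF0]; exact xχ.mul ((CO_const κ₂).mul n1)
  have k1' : CO x₁ x₂ F1 := by
    rw [hF1]; exact xχ.mul (((s2.mul oL).mul yn).sub (cc.mul oU))
  have k2' : CO x₁ x₂ F2 := by
    rw [hF2]; exact xχ.mul (s2.mul ((oWx.mul yre).add (oWy.mul yim)))
  have k3 : CO x₁ x₂ F3 := by
    rw [hF3]; exact xχ.mul (sc.mul ((oW2x.mul yre).add (oW2y.mul yim)))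
  have k4 : CO x₁ x₂ F4 := by
    rw [hF4]; exact xχ.mul ((s2.mul ((oVx.neg.mul yim).add (oVy.mul yre))).add (sc.mul oV))
  have k5 : CO x₁ x₂ F5 := by
    rw [hF5]; exact xχ.mul ((sc.mul ((oV2x.neg.mul yim).add (oV2y.mul yre))).add (cc.mul oV2))
  -- the identities
  have i1 : II x₁ x₂ F1 = II x₁ x₂ (fun ξ η => χ₂ ξ * (Real.sin η ^ 2 * U (X (pt ξ η)))) := by
    rw [hF1]
    exact nU hU hx12 hX.an d1 d2 c2 e1 e2 e3 e4 hd_sq hd_sc (by fun_prop) (by simp) (by simp)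
      (by simp) (by simp)
  have i2 : II x₁ x₂ F2 = - II x₁ x₂ (fun ξ η => χ₁ ξ * (Real.sin η ^ 2 * W (X (pt ξ η)))) := by
    rw [hF2]
    exact nW hW hx12 hX.an d1 hχ₁ e1 e2 (by fun_prop)
  have i3 : II x₁ x₂ F3 =
      - II x₁ x₂ (fun ξ η => χ₁ ξ * (2 * Real.sin η * Real.cos η * W2 (X (pt ξ η)))) := by
    rw [hF3]
    exact nW hW2 hx12 hX.an d1 hχ₁ e1 e2 (by fun_prop)
  have i4 : II x₁ x₂ F4 = 0 := by
    rw [hF4]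
    exact nV hV hx12 hX.an hχ hd_sq (by fun_prop) (by simp) (by simp)
  have i5 : II x₁ x₂ F5 = 0 := by
    rw [hF5]
    exact nV hV2 hx12 hX.an hχ hd_sc (by fun_prop) (by simp) (by simp)
  -- the error terms
  have sin1 : ∀ η, |Real.sin η ^ 2| ≤ 1 := fun η => by
    rw [abs_of_nonneg (sq_nonneg _)]
    nlinarith [Real.sin_sq_add_cos_sq η, sq_nonneg (Real.cos η)]
  have sin2 : ∀ η, |2 * Real.sin η * Real.cos η| ≤ 1 := fun η => by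
    rw [abs_le]
    constructor
    · nlinarith [Real.sin_sq_add_cos_sq η, sq_nonneg (Real.sin η + Real.cos η)]
    · nlinarith [Real.sin_sq_add_cos_sq η, sq_nonneg (Real.sin η - Real.cos η)]
  have bd : ∀ {f g : ℝ} {u n : ℝ}, |f| ≤ C' / l → |g| ≤ 1 → |u| ≤ C * n →
      |f * (g * u)| ≤ C' / l * C * n := by
    intro f g u n h1 h2 h3
    rw [abs_mul, abs_mul, mul_assoc (C' / l)]
    refine mul_le_mul h1 ?_ (mul_nonneg (abs_nonneg _) (abs_nonneg _)) hCC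
    calc |g| * |u| ≤ 1 * |u| := mul_le_mul_of_nonneg_right h2 (abs_nonneg _)
      _ = |u| := one_mul _
      _ ≤ C * n := h3
  have r1 := (err_le hx12 (F := fun ξ η => χ₂ ξ * (Real.sin η ^ 2 * U (X (pt ξ η))))
    (xχ₂.mul (s2.mul oU)) n1 fun ξ η => bd (k2 ξ) (sin1 η) (bU _)).1
  have r2 := (err_le hx12 (F := fun ξ η => χ₁ ξ * (Real.sin η ^ 2 * W (X (pt ξ η))))
    (xχ₁.mul (s2.mul oW)) n1 fun ξ η => bd (k1 ξ) (sin1 η) (bW _)).2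
  have r3 := (err_le hx12
    (F := fun ξ η => χ₁ ξ * (2 * Real.sin η * Real.cos η * W2 (X (pt ξ η))))
    (xχ₁.mul (sc.mul oW2)) n1 fun ξ η => bd (k1 ξ) (sin2 η) (bW2 _)).2
  have r0 : II x₁ x₂ F0 ≤ κ₂ * II x₁ x₂ (fun ξ η => ‖X (pt ξ η) - 1‖ ^ 2) := by
    rw [← II_const_mul]
    refine II_mono hx12 k0 ((CO_const κ₂).mul n1) fun ξ _ η _ => ?_
    rw [hF0]
    have h1 : 0 ≤ κ₂ * ‖X (pt ξ η) - 1‖ ^ 2 := mul_nonneg hκ (sq_nonneg _)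
    have h2 := (b01 ξ).2
    simp only
    nlinarith
  -- the sum
  have hsum : II x₁ x₂ (fun ξ η => F0 ξ η + F1 ξ η + F2 ξ η + F3 ξ η + F4 ξ η + F5 ξ η) =
      II x₁ x₂ F0 + II x₁ x₂ F1 + II x₁ x₂ F2 + II x₁ x₂ F3 + II x₁ x₂ F4 + II x₁ x₂ F5 := by
    rw [II_add hx12 (((((k0.add k1').add k2').add k3)).add k4) k5,
      II_add hx12 ((((k0.add k1').add k2').add k3)) k4,
      II_add hx12 ((k0.add k1').add k2') k3, II_add hx12 (k0.add k1') k2', II_add hx12 k0 k1']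
  have hS : CO x₁ x₂ (fun ξ η => F0 ξ η + F1 ξ η + F2 ξ η + F3 ξ η + F4 ξ η + F5 ξ η) :=
    ((((k0.add k1').add k2').add k3).add k4).add k5
  have hle : ∀ ξ ∈ Icc x₁ x₂, ∀ η ∈ Icc (0:ℝ) π,
      χ ξ * TG G (X (pt ξ η)) (deriv X (pt ξ η)) (Real.sin η) (Real.cos η) ≤
        F0 ξ η + F1 ξ η + F2 ξ η + F3 ξ η + F4 ξ η + F5 ξ η := by
    intro ξ hξ η hη
    have hne : X (pt ξ η) ≠ 0 := hX.ne _ (pt_mem (p := (ξ, η)) ⟨hξ, hη⟩)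
    have h1 := hp (X (pt ξ η)) (deriv X (pt ξ η)) hne (Real.sin η) (Real.cos η)
      (Real.sin_sq_add_cos_sq η)
    have h2 := mul_le_mul_of_nonneg_left h1 (b01 ξ).1
    refine h2.trans (le_of_eq ?_)
    rw [hF0, hF1, hF2, hF3, hF4, hF5]
    ring
  have hmain : II (x₁ + l) (x₂ - l) (fun ξ η =>
      TG G (X (pt ξ η)) (deriv X (pt ξ η)) (Real.sin η) (Real.cos η)) ≤
      II x₁ x₂ (fun ξ η => χ ξ *
        TG G (X (pt ξ η)) (deriv X (pt ξ η)) (Real.sin η) (Real.cos η)) := by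
    refine II_sub_le (by linarith) hx (by linarith) (xχ.mul oT)
      (oT.mono (by linarith) (by linarith)) (fun ξ _ η _ => ?_) fun ξ hξ η _ => ?_
    · exact mul_nonneg (b01 ξ).1 (sq_nonneg _)
    · rw [b1 ξ hξ, one_mul]
  have hmid := II_mono hx12 (xχ.mul oT) hS hle
  rw [hsum, i1, i2, i3, i4, i5] at hmid
  refine (hmain.trans hmid).trans ?_
  have e : (κ₂ + 3 * (C' * C) / l) * II x₁ x₂ (fun ξ η => ‖X (pt ξ η) - 1‖ ^ 2) =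
      κ₂ * II x₁ x₂ (fun ξ η => ‖X (pt ξ η) - 1‖ ^ 2) +
        3 * (C' / l * C * II x₁ x₂ (fun ξ η => ‖X (pt ξ η) - 1‖ ^ 2)) := by
    ring
  rw [e]
  linarith

end Pool.Agent.Helper44.EK
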