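import Pool.Agent.Helper44.EK.StripAux
import Pool.Agent.Helper78.EK.NullU
import Pool.Agent.Helper4.EK.NullV
import Pool.Agent.Helper56.EK.Cutoff

/-!
# Project EK, E4d: from the pointwise inequality to the integrated one
-/

set_option autoImplicit false

open Complex MeasureTheory Metric Set
open scoped Real ComplexConjugate

namespace Pool.Agent.Helper44.EK

open Pool.Agent.Helper52.EK

/-- E4d: from the pointwise inequality to the integrated one -/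
theorem strip_of_cert {κ₂ : ℝ} (hκ : 0 ≤ κ₂) {G : ℂ → ℂ} {L : ℝ} (hG : GLip G L)
    {U Ux Uy Lap V Vx Vy V2 V2x V2y W Wx Wy W2 W2x W2y : ℂ → ℝ}
    (hU : C2f U Ux Uy Lap) (hV : C1f V Vx Vy) (hV2 : C1f V2 V2x V2y) (hW : C1f W Wx Wy)
    (hW2 : C1f W2 W2x W2y)
    {C : ℝ} (bU : ∀ X, |U X| ≤ C * ‖X - 1‖ ^ 2) (bW : ∀ X, |W X| ≤ C * ‖X - 1‖ ^ 2)
    (bW2 : ∀ X, |W2 X| ≤ C * ‖X - 1‖ ^ 2)
    (hp : ∀ X Y : ℂ, X ≠ 0 → ∀ s c : ℝ, s ^ 2 + c ^ 2 = 1 →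
      TG G X Y s c ≤ κ₂ * ‖X - 1‖ ^ 2 + (s ^ 2 * Lap X * ‖Y‖ ^ 2 - 2 * (c ^ 2 - s ^ 2) * U X)
        + (s ^ 2 * (Wx X * Y.re + Wy X * Y.im) + 2 * s * c * (W2x X * Y.re + W2y X * Y.im))
        + (s ^ 2 * (-Vx X * Y.im + Vy X * Y.re) + 2 * s * c * V X)
        + (2 * s * c * (-V2x X * Y.im + V2y X * Y.re) + 2 * (c ^ 2 - s ^ 2) * V2 X)) :
    StripIneq κ₂ (TG G) :=
  strip_aux (fun h => Pool.Agent.Helper78.EK.nullU h) (fun h => Pool.Agent.Helper4.EK.nullV h)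
    (fun h => Pool.Agent.Helper4.EK.nullW h) Pool.Agent.Helper56.EK.cutoff hκ hG hU hV hV2 hW hW2 bU bW bW2 hp

end Pool.Agent.Helper44.EK
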