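import Pool.Agent.Helper44.EK.StripAux
import Pool.Agent.Helper78.EK.NullU
import Pool.Agent.Helper4.EK.NullV
import Pool.Agent.Helper56.EK.Cutoff

/-!
# Project EK / EKC, E4d for a general functional: from the pointwise inequality to the integral
-/

set_option autoImplicit false

open Complex MeasureTheory Metric Set
open scoped Real ComplexConjugate

namespace Pool.Agent.Helper44.EK

open Pool.Agent.Helper52.EK

theorem CO_T {x₁ x₂ : ℝ} {X : ℂ → ℂ} (hX : NiceX X x₁ x₂) {T : ℂ → ℂ → ℝ → ℝ → ℝ}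
    (hTc : ContinuousOn (fun p : ℂ × ℂ × ℝ × ℝ => T p.1 p.2.1 p.2.2.1 p.2.2.2) {p | p.1 ≠ 0}) :
    CO x₁ x₂ (fun ξ η => T (X (pt ξ η)) (deriv X (pt ξ η)) (Real.sin η) (Real.cos η)) := by
  have c1 := comp_pt hX.an.continuousOn
  have c2 := comp_pt (X := deriv X) hX.an.deriv.continuousOn
  have c3 : ContinuousOn (fun p : ℝ × ℝ => Real.sin p.2) (RR x₁ x₂) :=
    (Real.continuous_sin.comp continuous_snd).continuousOn
  have c4 : ContinuousOn (fun p : ℝ × ℝ => Real.cos p.2) (RR x₁ x₂) :=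
    (Real.continuous_cos.comp continuous_snd).continuousOn
  exact hTc.comp (c1.prodMk (c2.prodMk (c3.prodMk c4))) fun p hp => hX.ne _ (pt_mem hp)

/-- E4d for a general functional `T`. -/
theorem strip_gen {κ₂ : ℝ} (hκ : 0 ≤ κ₂) {T : ℂ → ℂ → ℝ → ℝ → ℝ}
    (hT0 : ∀ (X Y : ℂ) (s c : ℝ), 0 ≤ T X Y s c)
    (hTc : ContinuousOn (fun p : ℂ × ℂ × ℝ × ℝ => T p.1 p.2.1 p.2.2.1 p.2.2.2) {p | p.1 ≠ 0})
    {U Ux Uy Lap V Vx Vy V2 V2x V2y W Wx Wy W2 W2x W2y : ℂ → ℝ}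
    (hU : C2f U Ux Uy Lap) (hV : C1f V Vx Vy) (hV2 : C1f V2 V2x V2y) (hW : C1f W Wx Wy)
    (hW2 : C1f W2 W2x W2y)
    {C : ℝ} (bU : ∀ X, |U X| ≤ C * ‖X - 1‖ ^ 2) (bW : ∀ X, |W X| ≤ C * ‖X - 1‖ ^ 2)
    (bW2 : ∀ X, |W2 X| ≤ C * ‖X - 1‖ ^ 2)
    (hp : ∀ X Y : ℂ, X ≠ 0 → ∀ s c : ℝ, s ^ 2 + c ^ 2 = 1 →
      T X Y s c ≤ κ₂ * ‖X - 1‖ ^ 2 + (s ^ 2 * Lap X * ‖Y‖ ^ 2 - 2 * (c ^ 2 - s ^ 2) * U X)
        + (s ^ 2 * (Wx X * Y.re + Wy X * Y.im) + 2 * s * c * (W2x X * Y.re + W2y X * Y.im))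
        + (s ^ 2 * (-Vx X * Y.im + Vy X * Y.re) + 2 * s * c * V X)
        + (2 * s * c * (-V2x X * Y.im + V2y X * Y.re) + 2 * (c ^ 2 - s ^ 2) * V2 X)) :
    StripIneq κ₂ T := by
  obtain ⟨C', hcut⟩ := Pool.Agent.Helper56.EK.cutoff
  refine ⟨3 * (C' * C), fun X x₁ x₂ l hl hx hX => ?_⟩
  obtain ⟨χ, χ₁, χ₂, d1, d2, c2, e1, e2, e3, e4, b01, b1, k1, k2⟩ := hcut x₁ x₂ l hl hx
  have hx12 : x₁ ≤ x₂ := by linarith
  have hl0 : 0 < l := by linarith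
  have hχ : Continuous χ := continuous_iff_continuousAt.2 fun ξ => (d1 ξ).continuousAt
  have hχ₁ : Continuous χ₁ := continuous_iff_continuousAt.2 fun ξ => (d2 ξ).continuousAt
  have hCC : 0 ≤ C' / l := (abs_nonneg _).trans (k1 0)
  -- continuity
  have cX := hX.an.continuousOn
  have cY : ContinuousOn (deriv X) (Rect x₁ x₂) := hX.an.deriv.continuousOn
  have yre : CO x₁ x₂ (fun ξ η => (deriv X (pt ξ η)).re) := CO_comp cY continuous_re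
  have yim : CO x₁ x₂ (fun ξ η => (deriv X (pt ξ η)).im) := CO_comp cY continuous_im
  have yn : CO x₁ x₂ (fun ξ η => ‖deriv X (pt ξ η)‖ ^ 2) := CO_comp cY (continuous_norm.pow 2)
  have n1 : CO x₁ x₂ (fun ξ η => ‖X (pt ξ η) - 1‖ ^ 2) :=
    CO_comp cX ((continuous_id.sub continuous_const).norm.pow 2)
  have xχ : CO x₁ x₂ (fun ξ _ => χ ξ) := CO_xi hχ
  have xχ₁ : CO x₁ x₂ (fun ξ _ => χ₁ ξ) := CO_xi hχ₁
  have xχ₂ : CO x₁ x₂ (fun ξ _ => χ₂ ξ) := CO_xi c2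
  have s2 : CO x₁ x₂ (fun _ η => Real.sin η ^ 2) := CO_eta (by fun_prop)
  have sc : CO x₁ x₂ (fun _ η => 2 * Real.sin η * Real.cos η) := CO_eta (by fun_prop)
  have cc : CO x₁ x₂ (fun _ η => 2 * (Real.cos η ^ 2 - Real.sin η ^ 2)) :=
    CO_eta (by fun_prop)
  have hLap : Continuous Lap := by
    obtain ⟨Uxx, Uxy, Uyy, g1, g2, g3⟩ := hU.h2
    have : Lap = fun X => Uxx X + Uyy X := funext g3
    rw [this]
    exact g1.cx.add g2.cy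
  have oU := CO_comp cX (C1f.continuous hU.h1)
  have oL := CO_comp cX hLap
  have oV := CO_comp cX (C1f.continuous hV)
  have oVx := CO_comp cX hV.cx
  have oVy := CO_comp cX hV.cy
  have oV2 := CO_comp cX (C1f.continuous hV2)
  have oV2x := CO_comp cX hV2.cx
  have oV2y := CO_comp cX hV2.cy
  have oW := CO_comp cX (C1f.continuous hW)
  have oWx := CO_comp cX hW.cx
  have oWy := CO_comp cX hW.cy
  have oW2 := CO_comp cX (C1f.continuous hW2)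
  have oW2x := CO_comp cX hW2.cx
  have oW2y := CO_comp cX hW2.cy
  have oT := CO_T hX hTc
  -- the parts
  obtain ⟨F0, hF0⟩ : ∃ F : ℝ → ℝ → ℝ, F = fun ξ η => χ ξ * (κ₂ * ‖X (pt ξ η) - 1‖ ^ 2) :=
    ⟨_, rfl⟩
  obtain ⟨F1, hF1⟩ : ∃ F : ℝ → ℝ → ℝ, F = fun ξ η => χ ξ * (Real.sin η ^ 2 *
      Lap (X (pt ξ η)) * ‖deriv X (pt ξ η)‖ ^ 2 -
        2 * (Real.cos η ^ 2 - Real.sin η ^ 2) * U (X (pt ξ η))) := ⟨_, rfl⟩
  obtain ⟨F2, hF2⟩ : ∃ F : ℝ → ℝ → ℝ, F = fun ξ η => χ ξ * (Real.sin η ^ 2 *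
      (Wx (X (pt ξ η)) * (deriv X (pt ξ η)).re + Wy (X (pt ξ η)) * (deriv X (pt ξ η)).im)) :=
    ⟨_, rfl⟩
  obtain ⟨F3, hF3⟩ : ∃ F : ℝ → ℝ → ℝ, F = fun ξ η => χ ξ * (2 * Real.sin η * Real.cos η *
      (W2x (X (pt ξ η)) * (deriv X (pt ξ η)).re + W2y (X (pt ξ η)) * (deriv X (pt ξ η)).im)) :=
    ⟨_, rfl⟩
  obtain ⟨F4, hF4⟩ : ∃ F : ℝ → ℝ → ℝ, F = fun ξ η => χ ξ * (Real.sin η ^ 2 *
      (-Vx (X (pt ξ η)) * (deriv X (pt ξ η)).im + Vy (X (pt ξ η)) * (deriv X (pt ξ η)).re) +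
        2 * Real.sin η * Real.cos η * V (X (pt ξ η))) := ⟨_, rfl⟩
  obtain ⟨F5, hF5⟩ : ∃ F : ℝ → ℝ → ℝ, F = fun ξ η => χ ξ * (2 * Real.sin η * Real.cos η *
      (-V2x (X (pt ξ η)) * (deriv X (pt ξ η)).im + V2y (X (pt ξ η)) * (deriv X (pt ξ η)).re) +
        2 * (Real.cos η ^ 2 - Real.sin η ^ 2) * V2 (X (pt ξ η))) := ⟨_, rfl⟩
  have k0 : CO x₁ x₂ F0 := by
    rw [hF0]; exact xχ.mul ((CO_const κ₂).mul n1)
  have k1' : CO x₁ x₂ F1 := by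
    rw [hF1]; exact xχ.mul (((s2.mul oL).mul yn).sub (cc.mul oU))
  have k2' : CO x₁ x₂ F2 := by
    rw [hF2]; exact xχ.mul (s2.mul ((oWx.mul yre).add (oWy.mul yim)))
  have k3 : CO x₁ x₂ F3 := by
    rw [hF3]; exact xχ.mul (sc.mul ((oW2x.mul yre).add (oW2y.mul yim)))
  have k4 : CO x₁ x₂ F4 := by
    rw [hF4]; exact xχ.mul ((s2.mul ((oVx.neg.mul yim).add (oVy.mul yre))).add (sc.mul oV))
  have k5 : CO x₁ x₂ F5 := by
    rw [hF5]; exact xχ.mul ((sc.mul ((oV2x.neg.mul yim).add (oV2y.mul yre))).add (cc.mul oV2))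
  -- the identities
  have i1 : II x₁ x₂ F1 = II x₁ x₂ (fun ξ η => χ₂ ξ * (Real.sin η ^ 2 * U (X (pt ξ η)))) := by
    rw [hF1]
    exact Pool.Agent.Helper78.EK.nullU hU hx12 hX.an d1 d2 c2 e1 e2 e3 e4 hd_sq hd_sc (by fun_prop) (by simp) (by simp)
      (by simp) (by simp)
  have i2 : II x₁ x₂ F2 = - II x₁ x₂ (fun ξ η => χ₁ ξ * (Real.sin η ^ 2 * W (X (pt ξ η)))) := by
    rw [hF2]
    exact Pool.Agent.Helper4.EK.nullW hW hx12 hX.an d1 hχ₁ e1 e2 (by fun_prop)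
  have i3 : II x₁ x₂ F3 =
      - II x₁ x₂ (fun ξ η => χ₁ ξ * (2 * Real.sin η * Real.cos η * W2 (X (pt ξ η)))) := by
    rw [hF3]
    exact Pool.Agent.Helper4.EK.nullW hW2 hx12 hX.an d1 hχ₁ e1 e2 (by fun_prop)
  have i4 : II x₁ x₂ F4 = 0 := by
    rw [hF4]
    exact Pool.Agent.Helper4.EK.nullV hV hx12 hX.an hχ hd_sq (by fun_prop) (by simp) (by simp)
  have i5 : II x₁ x₂ F5 = 0 := by
    rw [hF5]
    exact Pool.Agent.Helper4.EK.nullV hV2 hx12 hX.an hχ hd_sc (by fun_prop) (by simp) (by simp)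
  -- the error terms
  have sin1 : ∀ η, |Real.sin η ^ 2| ≤ 1 := fun η => by
    rw [abs_of_nonneg (sq_nonneg _)]
    nlinarith [Real.sin_sq_add_cos_sq η, sq_nonneg (Real.cos η)]
  have sin2 : ∀ η, |2 * Real.sin η * Real.cos η| ≤ 1 := fun η => by
    rw [abs_le]
    constructor
    · nlinarith [Real.sin_sq_add_cos_sq η, sq_nonneg (Real.sin η + Real.cos η)]
    · nlinarith [Real.sin_sq_add_cos_sq η, sq_nonneg (Real.sin η - Real.cos η)]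
  have bd : ∀ {f g : ℝ} {u n : ℝ}, |f| ≤ C' / l → |g| ≤ 1 → |u| ≤ C * n →
      |f * (g * u)| ≤ C' / l * C * n := by
    intro f g u n h1 h2 h3
    rw [abs_mul, abs_mul, mul_assoc (C' / l)]
    refine mul_le_mul h1 ?_ (mul_nonneg (abs_nonneg _) (abs_nonneg _)) hCC
    calc |g| * |u| ≤ 1 * |u| := mul_le_mul_of_nonneg_right h2 (abs_nonneg _)
      _ = |u| := one_mul _
      _ ≤ C * n := h3
  have r1 := (err_le hx12 (F := fun ξ η => χ₂ ξ * (Real.sin η ^ 2 * U (X (pt ξ η))))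
    (xχ₂.mul (s2.mul oU)) n1 fun ξ η => bd (k2 ξ) (sin1 η) (bU _)).1
  have r2 := (err_le hx12 (F := fun ξ η => χ₁ ξ * (Real.sin η ^ 2 * W (X (pt ξ η))))
    (xχ₁.mul (s2.mul oW)) n1 fun ξ η => bd (k1 ξ) (sin1 η) (bW _)).2
  have r3 := (err_le hx12
    (F := fun ξ η => χ₁ ξ * (2 * Real.sin η * Real.cos η * W2 (X (pt ξ η))))
    (xχ₁.mul (sc.mul oW2)) n1 fun ξ η => bd (k1 ξ) (sin2 η) (bW2 _)).2
  have r0 : II x₁ x₂ F0 ≤ κ₂ * II x₁ x₂ (fun ξ η => ‖X (pt ξ η) - 1‖ ^ 2) := by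
    rw [← II_const_mul]
    refine II_mono hx12 k0 ((CO_const κ₂).mul n1) fun ξ _ η _ => ?_
    rw [hF0]
    have h1 : 0 ≤ κ₂ * ‖X (pt ξ η) - 1‖ ^ 2 := mul_nonneg hκ (sq_nonneg _)
    have h2 := (b01 ξ).2
    simp only
    nlinarith
  -- the sum
  have hsum : II x₁ x₂ (fun ξ η => F0 ξ η + F1 ξ η + F2 ξ η + F3 ξ η + F4 ξ η + F5 ξ η) =
      II x₁ x₂ F0 + II x₁ x₂ F1 + II x₁ x₂ F2 + II x₁ x₂ F3 + II x₁ x₂ F4 + II x₁ x₂ F5 := by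
    rw [II_add hx12 (((((k0.add k1').add k2').add k3)).add k4) k5,
      II_add hx12 ((((k0.add k1').add k2').add k3)) k4,
      II_add hx12 ((k0.add k1').add k2') k3, II_add hx12 (k0.add k1') k2', II_add hx12 k0 k1']
  have hS : CO x₁ x₂ (fun ξ η => F0 ξ η + F1 ξ η + F2 ξ η + F3 ξ η + F4 ξ η + F5 ξ η) :=
    ((((k0.add k1').add k2').add k3).add k4).add k5
  have hle : ∀ ξ ∈ Icc x₁ x₂, ∀ η ∈ Icc (0:ℝ) π,
      χ ξ * T (X (pt ξ η)) (deriv X (pt ξ η)) (Real.sin η) (Real.cos η) ≤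
        F0 ξ η + F1 ξ η + F2 ξ η + F3 ξ η + F4 ξ η + F5 ξ η := by
    intro ξ hξ η hη
    have hne : X (pt ξ η) ≠ 0 := hX.ne _ (pt_mem (p := (ξ, η)) ⟨hξ, hη⟩)
    have h1 := hp (X (pt ξ η)) (deriv X (pt ξ η)) hne (Real.sin η) (Real.cos η)
      (Real.sin_sq_add_cos_sq η)
    have h2 := mul_le_mul_of_nonneg_left h1 (b01 ξ).1
    refine h2.trans (le_of_eq ?_)
    rw [hF0, hF1, hF2, hF3, hF4, hF5]
    ring
  have hmain : II (x₁ + l) (x₂ - l) (fun ξ η =>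
      T (X (pt ξ η)) (deriv X (pt ξ η)) (Real.sin η) (Real.cos η)) ≤
      II x₁ x₂ (fun ξ η => χ ξ *
        T (X (pt ξ η)) (deriv X (pt ξ η)) (Real.sin η) (Real.cos η)) := by
    refine II_sub_le (by linarith) hx (by linarith) (xχ.mul oT)
      (oT.mono (by linarith) (by linarith)) (fun ξ _ η _ => ?_) fun ξ hξ η _ => ?_
    · exact mul_nonneg (b01 ξ).1 (hT0 _ _ _ _)
    · rw [b1 ξ hξ, one_mul]
  have hmid := II_mono hx12 (xχ.mul oT) hS hle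
  rw [hsum, i1, i2, i3, i4, i5] at hmid
  refine (hmain.trans hmid).trans ?_
  have e : (κ₂ + 3 * (C' * C) / l) * II x₁ x₂ (fun ξ η => ‖X (pt ξ η) - 1‖ ^ 2) =
      κ₂ * II x₁ x₂ (fun ξ η => ‖X (pt ξ η) - 1‖ ^ 2) +
        3 * (C' / l * C * II x₁ x₂ (fun ξ η => ‖X (pt ξ η) - 1‖ ^ 2)) := by
    ring
  rw [e]
  linarith

end Pool.Agent.Helper44.EK
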